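import Pool.Agent.X178.Ray.Prob

/-! The renormalisation bound and the zero-one law for random rays. -/

set_option autoImplicit false

open MeasureTheory ProbabilityTheory
open scoped ENNReal NNReal

namespace Pool.Agent.X178.Ray

/-- the constant of the renormalisation -/
def K : ℕ := 163 ^ 4

/-- the threshold of the renormalisation -/
noncomputable def δ : ℝ≥0∞ := (2 * (K : ℝ≥0∞))⁻¹

theorem K_δ : (K : ℝ≥0∞) * (δ * δ) = δ / 2 := by
  have hK : (K : ℝ≥0∞) ≠ 0 := by simp [K]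
  have hK' : (K : ℝ≥0∞) ≠ ⊤ := ENNReal.natCast_ne_top K
  unfold δ
  rw [ENNReal.mul_inv (Or.inl (by norm_num)) (Or.inl (by norm_num)), div_eq_mul_inv]
  calc (K : ℝ≥0∞) * (2⁻¹ * (K : ℝ≥0∞)⁻¹ * (2⁻¹ * (K : ℝ≥0∞)⁻¹))
      = (K : ℝ≥0∞) * (K : ℝ≥0∞)⁻¹ * (2⁻¹ * (K : ℝ≥0∞)⁻¹ * 2⁻¹) := by ring
    _ = 2⁻¹ * (K : ℝ≥0∞)⁻¹ * 2⁻¹ := by rw [ENNReal.mul_inv_cancel hK hK', one_mul]

theorem sq_le_A {ν : Measure ℕ} {A : ℝ≥0} (hA : ∀ l : ℕ, (l : ℝ≥0∞) ^ 2 * ν (Set.Ici l) ≤ A)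
    (lam : ℝ≥0) {r : ℕ} (hr : 1 ≤ r) :
    ((2 * (120 * r) + 1) ^ 2 : ℕ) * ((lam : ℝ≥0∞) * ν (Set.Ici r)) ≤ 241 ^ 2 * lam * A := by
  have h1 : (((2 * (120 * r) + 1) ^ 2 : ℕ) : ℝ≥0∞) ≤ 241 ^ 2 * (r : ℝ≥0∞) ^ 2 := by
    have : (2 * (120 * r) + 1) ^ 2 ≤ 241 ^ 2 * r ^ 2 := by
      rw [← mul_pow]
      exact Nat.pow_le_pow_left (by omega) 2
    exact_mod_cast this
  calc ((2 * (120 * r) + 1) ^ 2 : ℕ) * ((lam : ℝ≥0∞) * ν (Set.Ici r))
      ≤ (241 ^ 2 * (r : ℝ≥0∞) ^ 2) * ((lam : ℝ≥0∞) * ν (Set.Ici r)) := by gcongr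
    _ = 241 ^ 2 * lam * ((r : ℝ≥0∞) ^ 2 * ν (Set.Ici r)) := by ring
    _ ≤ 241 ^ 2 * lam * A := by gcongr; exact hA r

theorem H_step {lam : ℝ≥0} {ν : Measure ℕ} [IsProbabilityMeasure ν] {A : ℝ≥0}
    (hA : ∀ l : ℕ, (l : ℝ≥0∞) ^ 2 * ν (Set.Ici l) ≤ A)
    {r : ℕ} (hr : 1 ≤ r) {d : ℝ≥0∞} (hd : ∀ c, rayLaw lam ν {ω | H c r ω} ≤ d) (c : ℤ × ℤ) :
    rayLaw lam ν {ω | H c (10 * r) ω} ≤ 241 ^ 2 * lam * A + K * (d * d) := by
  set P := rayLaw lam ν with hP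
  obtain ⟨B, hBm, hBc⟩ : ∃ B : Finset (ℤ × ℤ), (∀ p, D (0, 0) p ≤ 81 → p ∈ B) ∧
      B.card = 163 ^ 2 :=
    ⟨ball (0, 0) 81, fun p hp => by rw [mem_ball]; exact hp, by rw [card_ball]⟩
  set L : Set (ℤ × ℤ → SiteData) := {ω | ∃ x, D c x ≤ 120 * r ∧ long r (ω x)} with hL
  set G : ℤ × ℤ → ℤ × ℤ → Set (ℤ × ℤ → SiteData) := fun p q =>
    {ω | D c (c.1 + r * p.1, c.2 + r * p.2) ≤ 21 * r ∧
      79 * r ≤ D c (c.1 + r * q.1, c.2 + r * q.2) ∧
      H (c.1 + r * p.1, c.2 + r * p.2) r ω ∧ H (c.1 + r * q.1, c.2 + r * q.2) r ω} with hG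
  have h1 : {ω | H c (10 * r) ω} ⊆ L ∪ ⋃ p ∈ B, ⋃ q ∈ B, G p q := by
    intro ω hω
    rcases H_rec hr hω with h | ⟨p, q, hp, hq, h⟩
    · exact Or.inl h
    · right
      exact Set.mem_iUnion₂.2 ⟨p, hBm p hp, Set.mem_iUnion₂.2 ⟨q, hBm q hq, h⟩⟩
  have hG' : ∀ p q, P (G p q) ≤ d * d := by
    intro p q
    by_cases hc : D c (c.1 + r * p.1, c.2 + r * p.2) ≤ 21 * r ∧
        79 * r ≤ D c (c.1 + r * q.1, c.2 + r * q.2)
    · have : G p q ⊆ {ω | H (c.1 + r * p.1, c.2 + r * p.2) r ω ∧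
          H (c.1 + r * q.1, c.2 + r * q.2) r ω} := fun ω hω => hω.2.2
      refine (measure_mono this).trans ?_
      rw [hP, indep_H hr hc.1 hc.2]
      exact mul_le_mul' (hd _) (hd _)
    · have : G p q = ∅ := by
        ext ω
        simp only [Set.mem_empty_iff_false, iff_false]
        exact fun h => hc ⟨h.1, h.2.1⟩
      rw [this, measure_empty]
      exact zero_le
  calc P {ω | H c (10 * r) ω}
      ≤ P (L ∪ ⋃ p ∈ B, ⋃ q ∈ B, G p q) := measure_mono h1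
    _ ≤ P L + P (⋃ p ∈ B, ⋃ q ∈ B, G p q) := measure_union_le _ _
    _ ≤ 241 ^ 2 * lam * A + K * (d * d) := by
        refine add_le_add ((long_ball_le c (120 * r) r).trans (sq_le_A hA lam hr)) ?_
        refine (measure_biUnion_finset_le _ _).trans ?_
        refine (Finset.sum_le_sum fun p _ => measure_biUnion_finset_le _ _).trans ?_
        refine (Finset.sum_le_sum fun p _ => Finset.sum_le_sum fun q _ => hG' p q).trans ?_
        rw [Finset.sum_const, Finset.sum_const, hBc, smul_smul, nsmul_eq_mul]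
        refine le_of_eq ?_
        congr 1

theorem H_bound {lam : ℝ≥0} {ν : Measure ℕ} [IsProbabilityMeasure ν] {A : ℝ≥0}
    (hA : ∀ l : ℕ, (l : ℝ≥0∞) ^ 2 * ν (Set.Ici l) ≤ A)
    (h1 : 241 ^ 2 * (lam : ℝ≥0∞) * A ≤ δ / 2) (h2 : 625 * (lam : ℝ≥0∞) ≤ δ) (n : ℕ) (c : ℤ × ℤ) :
    rayLaw lam ν {ω | H c (10 ^ n) ω} ≤ δ := by
  induction n generalizing c with
  | zero =>
    rw [pow_zero]
    have h3 : {ω | H c 1 ω} ⊆ {ω : ℤ × ℤ → SiteData | ∃ x, D c x ≤ 12 ∧ long 0 (ω x)} :=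
      fun ω hω => H_base hω
    refine (measure_mono h3).trans ((long_ball_le c 12 0).trans ?_)
    have h4 : ν (Set.Ici 0) ≤ 1 := prob_le_one
    calc (((2 * 12 + 1) ^ 2 : ℕ) : ℝ≥0∞) * ((lam : ℝ≥0∞) * ν (Set.Ici 0))
        ≤ (((2 * 12 + 1) ^ 2 : ℕ) : ℝ≥0∞) * ((lam : ℝ≥0∞) * 1) := by gcongr
      _ = 625 * lam := by norm_num
      _ ≤ δ := h2
  | succ n ih =>
    rw [pow_succ, mul_comm]
    refine (H_step hA (Nat.one_le_pow _ _ (by norm_num)) ih c).trans ?_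
    rw [K_δ]
    exact (add_le_add_left h1 _).trans (ENNReal.add_halves δ).le

theorem sum_sq (m : ℕ) (hm : 1 ≤ m) (n : ℕ) :
    ∑ i ∈ Finset.range n, 1 / ((m : ℝ) + 1 + i) ^ 2 ≤ 1 / (m : ℝ) - 1 / ((m : ℝ) + n) := by
  have hm' : (1 : ℝ) ≤ m := by exact_mod_cast hm
  induction n with
  | zero => simp
  | succ n ih =>
    rw [Finset.sum_range_succ]
    have h1 : 1 / ((m : ℝ) + 1 + n) ^ 2 ≤ 1 / (m + n) - 1 / (m + (n + 1 : ℕ)) := by
      push_cast
      have h2 : (0 : ℝ) < m + n := by positivity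
      have h3 : (0 : ℝ) < m + (n + 1) := by positivity
      rw [div_sub_div _ _ h2.ne' h3.ne', div_le_div_iff₀ (by positivity) (by positivity)]
      nlinarith
    linarith

theorem tail_sum {ν : Measure ℕ} {A : ℝ≥0} (hA : ∀ l : ℕ, (l : ℝ≥0∞) ^ 2 * ν (Set.Ici l) ≤ A)
    {r : ℕ} (hr : 1 ≤ r) : ∑' i : ℕ, (r : ℝ≥0∞) * ν (Set.Ici (2 * r + i)) ≤ A := by
  refine ENNReal.tsum_le_of_sum_range_le fun n => ?_
  have h1 : ∀ i : ℕ, (r : ℝ≥0∞) * ν (Set.Ici (2 * r + i)) ≤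
      ENNReal.ofReal (A * (r * (1 / (((2 * r - 1 : ℕ) : ℝ) + 1 + i) ^ 2))) := by
    intro i
    have h2 := hA (2 * r + i)
    have h3 : ν (Set.Ici (2 * r + i)) ≤ A / ((2 * r + i : ℕ) : ℝ≥0∞) ^ 2 := by
      rw [ENNReal.le_div_iff_mul_le (Or.inl (by simp; omega))
        (Or.inl (ENNReal.pow_ne_top (ENNReal.natCast_ne_top _)))]
      rw [mul_comm]; exact h2
    have h4 : (((2 * r - 1 : ℕ) : ℝ) + 1 + i) = ((2 * r + i : ℕ) : ℝ) := by
      have : 2 * r - 1 + 1 + i = 2 * r + i := by omega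
      exact_mod_cast this
    have hpos : (0 : ℝ) < ((2 * r + i : ℕ) : ℝ) := by
      have : 0 < 2 * r + i := by omega
      exact_mod_cast this
    rw [h4]
    calc (r : ℝ≥0∞) * ν (Set.Ici (2 * r + i)) ≤ r * (A / ((2 * r + i : ℕ) : ℝ≥0∞) ^ 2) := by gcongr
      _ = ENNReal.ofReal (A * (r * (1 / ((2 * r + i : ℕ) : ℝ) ^ 2))) := by
        rw [ENNReal.ofReal_mul (by positivity), ENNReal.ofReal_mul (by positivity),
          ENNReal.ofReal_div_of_pos (by positivity), ENNReal.ofReal_pow (by positivity),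
          ENNReal.ofReal_natCast, ENNReal.ofReal_natCast, ENNReal.ofReal_coe_nnreal,
          ENNReal.ofReal_one]
        rw [div_eq_mul_inv, div_eq_mul_inv]
        ring
  refine (Finset.sum_le_sum fun i _ => h1 i).trans ?_
  rw [← ENNReal.ofReal_sum_of_nonneg (fun i _ => by positivity), ← Finset.mul_sum,
    ← Finset.mul_sum]
  have h5 := sum_sq (2 * r - 1) (by omega) n
  have h6 : (r : ℝ) ≤ ((2 * r - 1 : ℕ) : ℝ) := by
    have : r ≤ 2 * r - 1 := by omega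
    exact_mod_cast this
  have hr' : (1 : ℝ) ≤ r := by exact_mod_cast hr
  have h7 : (r : ℝ) * ∑ i ∈ Finset.range n, 1 / (((2 * r - 1 : ℕ) : ℝ) + 1 + i) ^ 2 ≤ 1 := by
    have h8 : ∑ i ∈ Finset.range n, 1 / (((2 * r - 1 : ℕ) : ℝ) + 1 + i) ^ 2 ≤
        1 / ((2 * r - 1 : ℕ) : ℝ) := by
      have : (0 : ℝ) ≤ 1 / (((2 * r - 1 : ℕ) : ℝ) + n) := by positivity
      linarith
    calc (r : ℝ) * ∑ i ∈ Finset.range n, 1 / (((2 * r - 1 : ℕ) : ℝ) + 1 + i) ^ 2
        ≤ r * (1 / ((2 * r - 1 : ℕ) : ℝ)) := by gcongr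
      _ ≤ 1 := by
        rw [mul_one_div, div_le_one (by linarith)]
        exact h6
  calc ENNReal.ofReal (A * (r * ∑ i ∈ Finset.range n, 1 / (((2 * r - 1 : ℕ) : ℝ) + 1 + i) ^ 2))
      ≤ ENNReal.ofReal (A * 1) := by
        apply ENNReal.ofReal_le_ofReal
        exact mul_le_mul_of_nonneg_left h7 (by positivity)
    _ = A := by simp

/-- the far event -/
def Far (r : ℕ) (ω : ℤ × ℤ → SiteData) : Prop :=
  ∃ x, 12 * r < D (0, 0) x ∧ (x.1.natAbs ≤ 10 * r + 1 ∨ x.2.natAbs ≤ 10 * r + 1) ∧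
      long (D (0, 0) x - (10 * r + 1)) (ω x)

/-- the points of the cross -/
def pt (j : Fin 4) (a k : ℤ) : ℤ × ℤ := ![(a, k), (a, -k), (k, a), (-k, a)] j

theorem far_le {lam : ℝ≥0} {ν : Measure ℕ} [IsProbabilityMeasure ν] {A : ℝ≥0}
    (hA : ∀ l : ℕ, (l : ℝ≥0∞) ^ 2 * ν (Set.Ici l) ≤ A) {r : ℕ} (hr : 1 ≤ r) :
    rayLaw lam ν {ω | Far r ω} ≤ 92 * lam * A := by
  set P := rayLaw lam ν with hP
  have h1 : {ω | Far r ω} ⊆ ⋃ i : ℕ, ⋃ a ∈ Finset.Icc (-(10 * r + 1) : ℤ) (10 * r + 1),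
      ⋃ j ∈ (Finset.univ : Finset (Fin 4)),
      {ω : ℤ × ℤ → SiteData | long (2 * r + i) (ω (pt j a (12 * r + 1 + i)))} := by
    rintro ω ⟨x, hx, hx', hl⟩
    have hD : D (0, 0) x = max x.1.natAbs x.2.natAbs := by simp [D]
    obtain ⟨i, hi⟩ := Nat.exists_eq_add_of_lt hx
    have hl' : long (2 * r + i) (ω x) := by
      obtain ⟨m, hm, hm2⟩ := hl
      exact ⟨m, hm, by omega⟩
    have key : ∃ a ∈ Finset.Icc (-(10 * r + 1) : ℤ) (10 * r + 1), ∃ j : Fin 4,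
        x = pt j a (12 * r + 1 + i) := by
      rcases hx' with h | h
      · refine ⟨x.1, by rw [Finset.mem_Icc]; omega, ?_⟩
        rcases le_total 0 x.2 with h2 | h2
        · exact ⟨0, by simp only [pt, Matrix.cons_val_zero]; ext <;> simp; omega⟩
        · exact ⟨1, by simp only [pt, Matrix.cons_val_one]; ext <;> simp; omega⟩
      · refine ⟨x.2, by rw [Finset.mem_Icc]; omega, ?_⟩
        rcases le_total 0 x.1 with h2 | h2
        · exact ⟨2, by simp only [pt, Matrix.cons_val]; ext <;> simp; omega⟩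
        · exact ⟨3, by simp only [pt, Matrix.cons_val]; ext <;> simp; omega⟩
    obtain ⟨a, ha, j, hj⟩ := key
    simp only [Set.mem_iUnion]
    exact ⟨i, a, ha, j, Finset.mem_univ j, by rw [← hj]; exact hl'⟩
  refine (measure_mono h1).trans ((measure_iUnion_le _).trans ?_)
  have h2 : ∀ i : ℕ, P (⋃ a ∈ Finset.Icc (-(10 * r + 1) : ℤ) (10 * r + 1),
      ⋃ j ∈ (Finset.univ : Finset (Fin 4)),
      {ω : ℤ × ℤ → SiteData | long (2 * r + i) (ω (pt j a (12 * r + 1 + i)))}) ≤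
      92 * lam * (r * ν (Set.Ici (2 * r + i))) := by
    intro i
    refine (measure_biUnion_finset_le _ _).trans ?_
    refine (Finset.sum_le_sum fun p _ => measure_biUnion_finset_le _ _).trans ?_
    refine (Finset.sum_le_sum fun p _ => Finset.sum_le_sum fun q _ =>
      long_at_le _ (2 * r + i)).trans ?_
    rw [Finset.sum_const, Finset.sum_const, smul_smul, nsmul_eq_mul, Int.card_Icc]
    have h3 : (((10 * r + 1 : ℤ) + 1 - -(10 * r + 1)).toNat * (Finset.univ : Finset (Fin 4)).card) ≤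
        92 * r := by
      simp only [Finset.card_univ, Fintype.card_fin]
      omega
    calc ((((10 * r + 1 : ℤ) + 1 - -(10 * r + 1)).toNat *
          (Finset.univ : Finset (Fin 4)).card : ℕ) : ℝ≥0∞) * (lam * ν (Set.Ici (2 * r + i)))
        ≤ ((92 * r : ℕ) : ℝ≥0∞) * (lam * ν (Set.Ici (2 * r + i))) := by gcongr
      _ = 92 * lam * (r * ν (Set.Ici (2 * r + i))) := by push_cast; ring
  refine (ENNReal.tsum_le_tsum h2).trans ?_
  rw [ENNReal.tsum_mul_left]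
  gcongr
  exact tail_sum hA hr

/-- existence of an infinite cluster -/
def Perc (T : Set (ℤ × ℤ)) : Prop := ∃ x, {y | Conn T x y}.Infinite

theorem infinite_iff {S : Set (ℤ × ℤ)} : S.Infinite ↔ ∀ n : ℕ, ∃ y ∈ S, n < D (0, 0) y := by
  constructor
  · intro h n
    by_contra hcon
    push Not at hcon
    exact h ((ball (0, 0) n).finite_toSet.subset fun y hy => mem_ball.2 (hcon y hy))
  · intro h hf
    obtain ⟨M, hM⟩ := (hf.image (D (0, 0))).bddAbove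
    obtain ⟨y, hy, hy2⟩ := h M
    have := hM ⟨y, hy, rfl⟩
    omega

theorem meas_inf (x : ℤ × ℤ) :
    MeasurableSet {ω : ℤ × ℤ → SiteData | {y | Conn (cov Set.univ ω) x y}.Infinite} := by
  have : {ω : ℤ × ℤ → SiteData | {y | Conn (cov Set.univ ω) x y}.Infinite} =
      ⋂ n : ℕ, ⋃ y, ({ω | Conn (cov Set.univ ω) x y} ∩ {ω | n < D (0, 0) y}) := by
    ext ω
    simp only [Set.mem_ofPred_eq, infinite_iff, Set.mem_iInter, Set.mem_iUnion, Set.mem_inter_iff]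
  rw [this]
  exact MeasurableSet.iInter fun n => MeasurableSet.iUnion fun y =>
    (meas_conn' x y).inter (MeasurableSet.const _)

theorem meas_perc : MeasurableSet {ω : ℤ × ℤ → SiteData | Perc (cov Set.univ ω)} := by
  have : {ω : ℤ × ℤ → SiteData | Perc (cov Set.univ ω)} =
      ⋃ x, {ω | {y | Conn (cov Set.univ ω) x y}.Infinite} := by
    ext ω; simp [Perc]
  rw [this]
  exact MeasurableSet.iUnion meas_inf

theorem perc_le {lam : ℝ≥0} {ν : Measure ℕ} [IsProbabilityMeasure ν] {A : ℝ≥0}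
    (hA : ∀ l : ℕ, (l : ℝ≥0∞) ^ 2 * ν (Set.Ici l) ≤ A)
    (h1 : 241 ^ 2 * (lam : ℝ≥0∞) * A ≤ δ / 2) (h2 : 625 * (lam : ℝ≥0∞) ≤ δ) :
    rayLaw lam ν {ω | Perc (cov Set.univ ω)} ≤ δ + 92 * lam * A := by
  set E : ℕ → Set (ℤ × ℤ → SiteData) := fun n =>
    {ω | ∃ x, D (0, 0) x ≤ 10 ^ n ∧ {y | Conn (cov Set.univ ω) x y}.Infinite} with hE
  have hmono : Monotone E := by
    intro m n hmn ω ⟨x, hx, hx2⟩
    exact ⟨x, hx.trans (Nat.pow_le_pow_right (by norm_num) hmn), hx2⟩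
  have hU : {ω : ℤ × ℤ → SiteData | Perc (cov Set.univ ω)} = ⋃ n, E n := by
    ext ω
    simp only [Set.mem_ofPred_eq, Set.mem_iUnion, hE, Perc]
    constructor
    · rintro ⟨x, hx⟩
      exact ⟨D (0, 0) x, x, (Nat.lt_pow_self (by norm_num)).le, hx⟩
    · rintro ⟨n, x, -, hx⟩
      exact ⟨x, hx⟩
  rw [hU, hmono.measure_iUnion]
  refine iSup_le fun n => ?_
  have h3 : E n ⊆ {ω | H (0, 0) (10 ^ n) ω} ∪ {ω | Far (10 ^ n) ω} := by
    rintro ω ⟨x, hx, hx2⟩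
    obtain ⟨y, hy, hy2⟩ := infinite_iff.1 hx2 (10 * 10 ^ n)
    exact H_of_conn (Nat.one_le_pow _ _ (by norm_num)) hy hx hy2
  refine (measure_mono h3).trans ((measure_union_le _ _).trans ?_)
  exact add_le_add (H_bound hA h1 h2 n (0, 0)) (far_le hA (Nat.one_le_pow _ _ (by norm_num)))

/-- removing finitely many points does not change percolation -/
theorem perc_of_finite {T T' : Set (ℤ × ℤ)} (hT : T ⊆ T') (hf : (T' \ T).Finite) :
    Perc T' ↔ Perc T := by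
  constructor
  · rintro ⟨x, hx⟩
    by_contra hcon
    unfold Perc at hcon
    push Not at hcon
    have hfin : ∀ z, {y | Conn T z y}.Finite := hcon
    set N : Set (ℤ × ℤ) := ⋃ d ∈ T' \ T, (ball d 1 : Set (ℤ × ℤ)) with hN
    have hNf : N.Finite := hf.biUnion fun d _ => (ball d 1).finite_toSet
    have key : ∀ n y, Reach T' n x y → Conn T x y ∨ y ∈ T' \ T ∨ ∃ z ∈ N, Conn T z y := by
      intro n
      induction n with
      | zero =>
        rintro y ⟨rfl, h⟩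
        by_cases hxT : x ∈ T
        · exact Or.inl (Conn.refl hxT)
        · exact Or.inr (Or.inl ⟨h, hxT⟩)
      | succ n ih =>
        rintro y ⟨w, h1, h2, h3⟩
        by_cases hyT : y ∈ T
        · rcases ih w h1 with h | h | ⟨z, hz, h⟩
          · exact Or.inl (h.tail h2 hyT)
          · refine Or.inr (Or.inr ⟨y, ?_, Conn.refl hyT⟩)
            refine Set.mem_biUnion h ?_
            have := D_adj (c := w) h2
            rw [D_self] at this
            exact mem_ball.2 (by omega)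
          · exact Or.inr (Or.inr ⟨z, hz, h.tail h2 hyT⟩)
        · exact Or.inr (Or.inl ⟨h3, hyT⟩)
    refine hx (((hfin x).union (hf.union (hNf.biUnion fun z _ => hfin z))).subset ?_)
    rintro y ⟨n, hn⟩
    rcases key n y hn with h | h | ⟨z, hz, h⟩
    · exact Or.inl h
    · exact Or.inr (Or.inl h)
    · exact Or.inr (Or.inr (Set.mem_biUnion hz h))
  · rintro ⟨x, hx⟩
    exact ⟨x, hx.mono fun y hy => hy.mono hT⟩

/-- erase the animals rooted in a finite set -/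
noncomputable def reset (F : Set (ℤ × ℤ)) (ω : ℤ × ℤ → SiteData) : ℤ × ℤ → SiteData := by
  classical
  exact fun x => if x ∈ F then (0, fun _ => (0, 0)) else ω x

theorem cov_reset (F : Set (ℤ × ℤ)) (ω : ℤ × ℤ → SiteData) :
    cov Set.univ (reset F ω) = cov Fᶜ ω := by
  ext y
  constructor
  · rintro ⟨x, -, i, hi, hy⟩
    by_cases hx : x ∈ F
    · simp [reset, hx] at hi
    · simp only [reset, hx, if_false] at hi hy
      exact ⟨x, hx, i, hi, hy⟩
  · rintro ⟨x, hx, i, hi, hy⟩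
    have hx' : x ∉ F := hx
    refine ⟨x, trivial, i, ?_, ?_⟩
    · simpa [reset, hx'] using hi
    · simpa [reset, hx'] using hy

theorem cov_finite {F : Set (ℤ × ℤ)} (hF : F.Finite) (ω : ℤ × ℤ → SiteData) :
    (cov F ω).Finite := by
  have : cov F ω = ⋃ x ∈ F, ⋃ i ∈ Set.Iio (ω x).1,
      ray x (dir ((ω x).2 i).1) ((ω x).2 i).2 := by
    ext y; simp [cov]
  rw [this]
  refine hF.biUnion fun x _ => (Set.finite_Iio _).biUnion fun i _ => ?_
  refine ((Set.finite_Iic ((ω x).2 i).2).image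
    (fun k : ℕ => x + (k : ℤ) • dir ((ω x).2 i).1)).subset ?_
  rintro y ⟨k, hk, rfl⟩
  exact ⟨k, hk, rfl⟩

theorem perc_reset {F : Set (ℤ × ℤ)} (hF : F.Finite) (ω : ℤ × ℤ → SiteData) :
    Perc (cov Set.univ ω) ↔ Perc (cov Set.univ (reset F ω)) := by
  rw [cov_reset]
  refine perc_of_finite (cov_mono (Set.subset_univ _) ω) ((cov_finite hF ω).subset ?_)
  rintro y ⟨⟨x, -, h⟩, h2⟩
  refine ⟨x, ?_, h⟩
  by_contra hx
  exact h2 ⟨x, hx, h⟩

theorem measurable_reset (t : Set (ℤ × ℤ)) :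
    @Measurable _ _ (⨆ x ∈ t, MeasurableSpace.comap
        (fun ω : ℤ × ℤ → SiteData => ω x) inferInstance) inferInstance (reset tᶜ) := by
  set m : MeasurableSpace (ℤ × ℤ → SiteData) := (⨆ x ∈ t, MeasurableSpace.comap
        (fun ω : ℤ × ℤ → SiteData => ω x) inferInstance) with hm
  refine @measurable_pi_lambda _ _ _ m _ _ fun x => ?_
  by_cases hx : x ∈ t
  · have : (fun ω : ℤ × ℤ → SiteData => reset tᶜ ω x) = fun ω => ω x := by
      ext ω : 1
      simp [reset, hx]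
    rw [this]
    refine @Measurable.mono _ _ (MeasurableSpace.comap
      (fun ω : ℤ × ℤ → SiteData => ω x) inferInstance) m _ _ _ (comap_measurable _) ?_ le_rfl
    exact le_iSup₂_of_le (f := fun (x : ℤ × ℤ) (_ : x ∈ t) => MeasurableSpace.comap
      (fun ω : ℤ × ℤ → SiteData => ω x) inferInstance) x hx le_rfl
  · have : (fun ω : ℤ × ℤ → SiteData => reset tᶜ ω x) = fun ω => (0, fun _ => (0, 0)) := by
      ext ω : 1
      simp [reset, hx]
    rw [this]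
    exact @measurable_const _ _ _ m _

/-- the zero-one law -/
theorem zero_one (lam : ℝ≥0) (ν : Measure ℕ) [IsProbabilityMeasure ν] :
    rayLaw lam ν {ω | Perc (cov Set.univ ω)} = 0 ∨
      rayLaw lam ν {ω | Perc (cov Set.univ ω)} = 1 := by
  have hind : iIndepFun (fun (x : ℤ × ℤ) (ω : ℤ × ℤ → SiteData) => ω x) (rayLaw lam ν) :=
    iIndepFun_infinitePi (P := fun _ : ℤ × ℤ => siteLaw lam ν) (X := fun _ w => w)
      (fun i => measurable_id)
  refine measure_zero_or_one_of_measurableSet_limsup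
    (s := fun x : ℤ × ℤ => MeasurableSpace.comap (fun ω : ℤ × ℤ → SiteData => ω x) inferInstance)
    (f := Filter.cofinite) (p := fun t => t.Finite) (ns := fun F : Finset (ℤ × ℤ) => (F : Set _))
    (fun x => (measurable_pi_apply x).comap_le) hind ?_ ?_ ?_ ?_ ?_
  · intro t ht
    rw [Filter.mem_cofinite, compl_compl]; exact ht
  · intro F G
    classical
    exact ⟨F ∪ G, by simp, by simp⟩
  · intro F; exact F.finite_toSet
  · intro x; exact ⟨{x}, by simp⟩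
  · rw [Filter.limsup_eq_iInf_iSup]
    rw [MeasurableSpace.measurableSet_iInf]
    intro t
    rw [MeasurableSpace.measurableSet_iInf]
    intro ht
    have hF : (tᶜ).Finite := ht
    have h1 : {ω : ℤ × ℤ → SiteData | Perc (cov Set.univ ω)} =
        reset tᶜ ⁻¹' {ω | Perc (cov Set.univ ω)} := by
      ext ω; exact perc_reset hF ω
    rw [h1]
    have h2 := measurable_reset t
    exact h2 meas_perc

end Pool.Agent.X178.Ray
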