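import Mathlib

/-! Paths in subsets of the square lattice and the covered sets of random rays. -/

set_option autoImplicit false

namespace Pool.Agent.X178.Ray

/-- The nearest-neighbour graph of the square lattice. -/
def grid : SimpleGraph (ℤ × ℤ) where
  Adj p q := (p.1 - q.1).natAbs + (p.2 - q.2).natAbs = 1
  symm := ⟨fun p q h => by omega⟩
  loopless := ⟨fun p h => by simp at h⟩

/-- The four unit vectors of the square lattice. -/
def dir : Fin 4 → ℤ × ℤ := ![(1, 0), (-1, 0), (0, 1), (0, -1)]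

/-- The ray animal `{x, x + e, x + 2e, …, x + l e}` rooted at `x`. -/
def ray (x e : ℤ × ℤ) (l : ℕ) : Set (ℤ × ℤ) := {y | ∃ k : ℕ, k ≤ l ∧ y = x + (k : ℤ) • e}

/-- The data of a site: the number of animals rooted there and the directions and lengths of a
sequence of animals. -/
abbrev SiteData := ℕ × (ℕ → Fin 4 × ℕ)

/-- The set occupied by the animals rooted in `Λ`. -/
def cov (Λ : Set (ℤ × ℤ)) (ω : ℤ × ℤ → SiteData) : Set (ℤ × ℤ) :=
  {y | ∃ x ∈ Λ, ∃ i < (ω x).1, y ∈ ray x (dir ((ω x).2 i).1) ((ω x).2 i).2}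

/-- sup distance to `c` -/
def D (c x : ℤ × ℤ) : ℕ := max (x.1 - c.1).natAbs (x.2 - c.2).natAbs

theorem D_self (c : ℤ × ℤ) : D c c = 0 := by simp [D]

theorem D_comm (c x : ℤ × ℤ) : D c x = D x c := by
  unfold D; omega

theorem D_tri (a b c : ℤ × ℤ) : D a c ≤ D a b + D b c := by
  unfold D; omega

theorem D_adj {c p q : ℤ × ℤ} (h : grid.Adj p q) : D c q ≤ D c p + 1 := by
  unfold D
  change (p.1 - q.1).natAbs + (p.2 - q.2).natAbs = 1 at h
  omega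

theorem D_ray {x y : ℤ × ℤ} {e : Fin 4} {l : ℕ} (h : y ∈ ray x (dir e) l) : D x y ≤ l := by
  obtain ⟨k, hk, rfl⟩ := h
  unfold D
  fin_cases e <;> simp [dir] <;> omega

/-- the ray stays in a cross -/
theorem cross_ray {x y : ℤ × ℤ} {e : Fin 4} {l : ℕ} (h : y ∈ ray x (dir e) l) :
    x.1 = y.1 ∨ x.2 = y.2 := by
  obtain ⟨k, hk, rfl⟩ := h
  fin_cases e <;> simp [dir]

/-- `n` steps in `T` -/
def Reach (T : Set (ℤ × ℤ)) : ℕ → ℤ × ℤ → ℤ × ℤ → Prop
  | 0, x, y => x = y ∧ x ∈ T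
  | n + 1, x, y => ∃ z, Reach T n x z ∧ grid.Adj z y ∧ y ∈ T

def Conn (T : Set (ℤ × ℤ)) (x y : ℤ × ℤ) : Prop := ∃ n, Reach T n x y

theorem Reach.mono {T T' : Set (ℤ × ℤ)} {x y : ℤ × ℤ} {n : ℕ} (h : Reach T n x y)
    (hT : T ⊆ T') : Reach T' n x y := by
  induction n generalizing y with
  | zero => exact ⟨h.1, hT h.2⟩
  | succ n ih => obtain ⟨z, h1, h2, h3⟩ := h; exact ⟨z, ih h1, h2, hT h3⟩

theorem Conn.mono {T T' : Set (ℤ × ℤ)} {x y : ℤ × ℤ} (h : Conn T x y)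
    (hT : T ⊆ T') : Conn T' x y := by
  obtain ⟨n, hn⟩ := h; exact ⟨n, hn.mono hT⟩

theorem Conn.refl {T : Set (ℤ × ℤ)} {x : ℤ × ℤ} (h : x ∈ T) : Conn T x x := ⟨0, rfl, h⟩

theorem Conn.tail {T : Set (ℤ × ℤ)} {x y z : ℤ × ℤ} (h : Conn T x y) (h2 : grid.Adj y z)
    (h3 : z ∈ T) : Conn T x z := by
  obtain ⟨n, hn⟩ := h; exact ⟨n + 1, y, hn, h2, h3⟩

theorem Reach.mem_right {T : Set (ℤ × ℤ)} {x y : ℤ × ℤ} {n : ℕ} (h : Reach T n x y) : y ∈ T := by
  cases n with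
  | zero => exact h.1 ▸ h.2
  | succ n => obtain ⟨z, h1, h2, h3⟩ := h; exact h3

theorem Reach.mem_left {T : Set (ℤ × ℤ)} {x y : ℤ × ℤ} {n : ℕ} (h : Reach T n x y) : x ∈ T := by
  induction n generalizing y with
  | zero => exact h.2
  | succ n ih => obtain ⟨z, h1, h2, h3⟩ := h; exact ih h1

theorem Conn.mem_right {T : Set (ℤ × ℤ)} {x y : ℤ × ℤ} (h : Conn T x y) : y ∈ T :=
  h.choose_spec.mem_right

theorem Conn.mem_left {T : Set (ℤ × ℤ)} {x y : ℤ × ℤ} (h : Conn T x y) : x ∈ T :=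
  h.choose_spec.mem_left

theorem Conn.trans {T : Set (ℤ × ℤ)} {x y z : ℤ × ℤ} (h : Conn T x y) (h2 : Conn T y z) :
    Conn T x z := by
  obtain ⟨n, hn⟩ := h2
  induction n generalizing z with
  | zero => obtain ⟨rfl, _⟩ := hn; exact h
  | succ n ih => obtain ⟨w, h1, h2, h3⟩ := hn; exact (ih h1).tail h2 h3

theorem Conn.symm {T : Set (ℤ × ℤ)} {x y : ℤ × ℤ} (h : Conn T x y) : Conn T y x := by
  obtain ⟨n, hn⟩ := h
  induction n generalizing y with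
  | zero => obtain ⟨rfl, h⟩ := hn; exact Conn.refl h
  | succ n ih =>
    obtain ⟨w, h1, h2, h3⟩ := hn
    exact ((Conn.refl h3).tail h2.symm h1.mem_right).trans (ih h1)

/-- a path leaving a ball passes through its boundary layer -/
theorem exists_mid {T : Set (ℤ × ℤ)} {u v c : ℤ × ℤ} {a : ℕ} (h : Conn T u v)
    (hu : D c u ≤ a) (hv : a < D c v) : ∃ z, D c z = a ∧ Conn T z v := by
  obtain ⟨n, hn⟩ := h
  induction n generalizing v with
  | zero => obtain ⟨rfl, _⟩ := hn; omega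
  | succ n ih =>
    obtain ⟨w, h1, h2, h3⟩ := hn
    by_cases hw : a < D c w
    · obtain ⟨z, hz, hz2⟩ := ih hw h1
      exact ⟨z, hz, hz2.tail h2 h3⟩
    · have := D_adj (c := c) h2
      exact ⟨w, by omega, (Conn.refl h1.mem_right).tail h2 h3⟩

/-- localisation of a path at its first exit from a ball -/
theorem exists_exit {T : Set (ℤ × ℤ)} {z v x : ℤ × ℤ} {b : ℕ} (h : Conn T z v)
    (hz : D x z ≤ b) (hv : b < D x v) :
    ∃ v', b < D x v' ∧ Conn (T ∩ {y | D x y ≤ b + 1}) z v' := by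
  have key : ∀ n v, Reach T n z v → Conn (T ∩ {y | D x y ≤ b + 1}) z v ∨
      ∃ v', b < D x v' ∧ Conn (T ∩ {y | D x y ≤ b + 1}) z v' := by
    intro n
    induction n with
    | zero =>
      rintro v ⟨rfl, h⟩
      exact Or.inl (Conn.refl ⟨h, by simp; omega⟩)
    | succ n ih =>
      rintro v ⟨w, h1, h2, h3⟩
      rcases ih w h1 with h4 | h4
      · by_cases hw : b < D x w
        · exact Or.inr ⟨w, hw, h4⟩
        · have := D_adj (c := x) h2
          exact Or.inl (h4.tail h2 ⟨h3, by simp; omega⟩)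
      · exact Or.inr h4
  obtain ⟨n, hn⟩ := h
  rcases key n v hn with h1 | h1
  · exact ⟨v, hv, h1⟩
  · exact h1

theorem cov_mono {Λ Λ' : Set (ℤ × ℤ)} (h : Λ ⊆ Λ') (ω : ℤ × ℤ → SiteData) :
    cov Λ ω ⊆ cov Λ' ω := by
  rintro y ⟨x, hx, i, hi, hy⟩
  exact ⟨x, h hx, i, hi, hy⟩

/-- there is an animal of length at least `s` -/
def long (s : ℕ) (W : SiteData) : Prop := ∃ i < W.1, s ≤ (W.2 i).2

/-- crossing of an annulus -/
def H (c : ℤ × ℤ) (r : ℕ) (ω : ℤ × ℤ → SiteData) : Prop :=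
  ∃ u v, D c u ≤ r ∧ 10 * r < D c v ∧
    Conn (cov {x | D c x ≤ 12 * r} ω ∩ {y | D c y ≤ 10 * r + 1}) u v

theorem H_base {c : ℤ × ℤ} {ω : ℤ × ℤ → SiteData} (h : H c 1 ω) :
    ∃ x, D c x ≤ 12 ∧ long 0 (ω x) := by
  obtain ⟨u, v, h1, h2, h3⟩ := h
  obtain ⟨x, hx, i, hi, hy⟩ := h3.mem_left.1
  exact ⟨x, hx, i, hi, Nat.zero_le _⟩

/-- localisation of the covered set when there is no long ray -/
theorem local_cross {T : Set (ℤ × ℤ)} {z v x : ℤ × ℤ} {r : ℕ} {ω : ℤ × ℤ → SiteData}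
    (hr : 1 ≤ r) (h : Conn T z v) (hz : D x z ≤ r) (hv : 10 * r < D x v)
    (hT : ∀ y ∈ T, D x y ≤ 10 * r + 1 → ∃ x', D x' y < r ∧ y ∈ cov {x'} ω) : H x r ω := by
  obtain ⟨v', hv', hc⟩ := exists_exit (b := 10 * r) h (by omega) hv
  refine ⟨z, v', hz, hv', hc.mono ?_⟩
  rintro y ⟨hy1, hy2⟩
  refine ⟨?_, hy2⟩
  obtain ⟨x', hx', hy'⟩ := hT y hy1 hy2
  refine cov_mono ?_ ω hy'
  intro w hw
  rw [Set.mem_singleton_iff] at hw
  subst hw
  have h1 := D_tri x y w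
  have h2 := D_comm y w
  simp only [Set.mem_ofPred_eq] at hy2 ⊢
  omega

theorem exists_net (c z : ℤ × ℤ) {r M : ℕ} (hr : 1 ≤ r) (hz : D c z ≤ M * r) :
    ∃ p : ℤ × ℤ, D (0, 0) p ≤ M + 1 ∧ D (c.1 + r * p.1, c.2 + r * p.2) z ≤ r := by
  have key : ∀ a : ℤ, a.natAbs ≤ M * r → (a / r).natAbs ≤ M + 1 ∧ (a - r * (a / r)).natAbs ≤ r := by
    intro a ha
    have hr' : (0 : ℤ) < r := by omega
    have h1 := Int.mul_ediv_add_emod a r
    have h2 := Int.emod_nonneg a hr'.ne'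
    have h3 := Int.emod_lt_of_pos a hr'
    constructor
    · have h4 : |a| ≤ M * r := by
        rw [Int.abs_eq_natAbs]; exact_mod_cast ha
      rw [abs_le] at h4
      have h5 : -((M : ℤ) + 1) ≤ a / r := by
        by_contra hcon
        push Not at hcon
        nlinarith
      have h6 : a / r ≤ (M : ℤ) + 1 := by
        by_contra hcon
        push Not at hcon
        nlinarith
      omega
    · have : a - r * (a / r) = a % r := by linarith
      rw [this]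
      omega
  unfold D at hz
  have h1 := key (z.1 - c.1) (by omega)
  have h2 := key (z.2 - c.2) (by omega)
  refine ⟨((z.1 - c.1) / r, (z.2 - c.2) / r), ?_, ?_⟩
  · unfold D
    simp only
    omega
  · unfold D
    have e1 : z.1 - (c.1 + r * ((z.1 - c.1) / r)) = z.1 - c.1 - r * ((z.1 - c.1) / r) := by ring
    have e2 : z.2 - (c.2 + r * ((z.2 - c.2) / r)) = z.2 - c.2 - r * ((z.2 - c.2) / r) := by ring
    simp only
    rw [e1, e2]
    omega

/-- the deterministic recursion -/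
theorem H_rec {c : ℤ × ℤ} {r : ℕ} (hr : 1 ≤ r) {ω : ℤ × ℤ → SiteData} (h : H c (10 * r) ω) :
    (∃ x, D c x ≤ 120 * r ∧ long r (ω x)) ∨
    ∃ p q : ℤ × ℤ, D (0, 0) p ≤ 81 ∧ D (0, 0) q ≤ 81 ∧
      D c (c.1 + r * p.1, c.2 + r * p.2) ≤ 21 * r ∧
      79 * r ≤ D c (c.1 + r * q.1, c.2 + r * q.2) ∧
      H (c.1 + r * p.1, c.2 + r * p.2) r ω ∧ H (c.1 + r * q.1, c.2 + r * q.2) r ω := by
  by_cases hl : ∃ x, D c x ≤ 120 * r ∧ long r (ω x)
  · exact Or.inl hl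
  right
  push Not at hl
  obtain ⟨u, v, hu, hv, hc⟩ := h
  obtain ⟨z1, hz1, hc1⟩ := exists_mid (c := c) (a := 20 * r) hc (by omega) (by omega)
  obtain ⟨z2, hz2, hc2⟩ := exists_mid (c := c) (a := 80 * r) hc (by omega) (by omega)
  obtain ⟨p, hp, hp2⟩ := exists_net c z1 (M := 80) hr (by omega)
  obtain ⟨q, hq, hq2⟩ := exists_net c z2 (M := 80) hr (by omega)
  set x1 : ℤ × ℤ := (c.1 + r * p.1, c.2 + r * p.2) with hx1
  set x2 : ℤ × ℤ := (c.1 + r * q.1, c.2 + r * q.2) with hx2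
  have hT : ∀ x : ℤ × ℤ, ∀ y ∈ cov {x | D c x ≤ 12 * (10 * r)} ω ∩ {y | D c y ≤ 10 * (10 * r) + 1},
      D x y ≤ 10 * r + 1 → ∃ x', D x' y < r ∧ y ∈ cov {x'} ω := by
    rintro x y ⟨⟨x', hx', i, hi, hy⟩, -⟩ -
    refine ⟨x', ?_, x', rfl, i, hi, hy⟩
    have h1 := hl x' (by simp at hx'; omega)
    have h2 : ¬ r ≤ ((ω x').2 i).2 := fun h => h1 ⟨i, hi, h⟩
    have := D_ray hy
    omega
  have a1 := D_tri c x1 z1
  have a2 := D_tri c z1 x1
  have a3 := D_comm z1 x1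
  have b1 := D_tri c x2 z2
  have b2 := D_tri c z2 x2
  have b3 := D_comm z2 x2
  have c1 := D_tri c x1 v
  have c2 := D_tri c x2 v
  have d1 : D c x1 ≤ 21 * r := by omega
  have d2 : 79 * r ≤ D c x2 := by omega
  have d3 : 10 * r < D x1 v := by omega
  have d4 : 10 * r < D x2 v := by omega
  exact ⟨p, q, hp, hq, d1, d2, local_cross hr hc1 hp2 d3 (hT x1), local_cross hr hc2 hq2 d4 (hT x2)⟩

/-- a long connection implies a crossing, unless there is a long ray or a far ray -/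
theorem H_of_conn {r : ℕ} (hr : 1 ≤ r) {ω : ℤ × ℤ → SiteData} {u v : ℤ × ℤ}
    (h : Conn (cov Set.univ ω) u v) (hu : D (0, 0) u ≤ r) (hv : 10 * r < D (0, 0) v) :
    H (0, 0) r ω ∨ ∃ x, 12 * r < D (0, 0) x ∧ (x.1.natAbs ≤ 10 * r + 1 ∨ x.2.natAbs ≤ 10 * r + 1) ∧
      long (D (0, 0) x - (10 * r + 1)) (ω x) := by
  by_cases hf : ∃ x, 12 * r < D (0, 0) x ∧ (x.1.natAbs ≤ 10 * r + 1 ∨ x.2.natAbs ≤ 10 * r + 1) ∧
      long (D (0, 0) x - (10 * r + 1)) (ω x)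
  · exact Or.inr hf
  left
  push Not at hf
  obtain ⟨v', hv', hc⟩ := exists_exit (b := 10 * r) h (by omega) hv
  refine ⟨u, v', hu, hv', hc.mono ?_⟩
  rintro y ⟨⟨x, -, i, hi, hy⟩, hy2⟩
  refine ⟨⟨x, ?_, i, hi, hy⟩, hy2⟩
  by_contra hcon
  simp only [Set.mem_ofPred_eq, not_le] at hcon hy2
  have h1 := D_ray hy
  have h2 := cross_ray hy
  have h3 := D_tri (0, 0) y x
  have h4 := D_comm y x
  have h5 : D (0, 0) x ≤ (10 * r + 1) + ((ω x).2 i).2 := by omega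
  refine hf x hcon ?_ ⟨i, hi, by omega⟩
  unfold D at hy2
  simp only [sub_zero] at hy2
  rcases h2 with h2 | h2
  · left; rw [h2]; omega
  · right; rw [h2]; omega

end Pool.Agent.X178.Ray
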