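import Pool.Agent.X178.Ray.Path

/-! Measurability, independence and the union bounds for random rays. -/

set_option autoImplicit false

open MeasureTheory ProbabilityTheory
open scoped ENNReal NNReal

namespace Pool.Agent.X178.Ray

/-- The law of the data of a site: `N ~ Poisson(lam)`, and an independent i.i.d. sequence of
independent uniform directions and lengths of law `ν`. -/
noncomputable def siteLaw (lam : ℝ≥0) (ν : Measure ℕ) : Measure SiteData :=
  (poissonMeasure lam).prod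
    (Measure.infinitePi fun _ : ℕ => (PMF.uniformOfFintype (Fin 4)).toMeasure.prod ν)

/-- The law of the whole configuration: the sites are independent. -/
noncomputable def rayLaw (lam : ℝ≥0) (ν : Measure ℕ) : Measure (ℤ × ℤ → SiteData) :=
  Measure.infinitePi fun _ : ℤ × ℤ => siteLaw lam ν

instance (lam : ℝ≥0) (ν : Measure ℕ) [IsProbabilityMeasure ν] :
    IsProbabilityMeasure (siteLaw lam ν) := by
  unfold siteLaw; infer_instance

instance (lam : ℝ≥0) (ν : Measure ℕ) [IsProbabilityMeasure ν] :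
    IsProbabilityMeasure (rayLaw lam ν) := by
  unfold rayLaw; infer_instance

theorem meas_site (Q : Fin 4 × ℕ → Prop) : MeasurableSet {W : SiteData | ∃ i < W.1, Q (W.2 i)} := by
  have : {W : SiteData | ∃ i < W.1, Q (W.2 i)} =
      ⋃ i : ℕ, ({W : SiteData | i < W.1} ∩ {W : SiteData | Q (W.2 i)}) := by
    ext W; simp
  rw [this]
  refine MeasurableSet.iUnion fun i => MeasurableSet.inter ?_ ?_
  · exact (MeasurableSet.of_discrete (s := {n : ℕ | i < n})).preimage measurable_fst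
  · exact (MeasurableSet.of_discrete (s := {w : Fin 4 × ℕ | Q w})).preimage
      ((measurable_pi_apply i).comp measurable_snd)

theorem meas_cov (Λ : Set (ℤ × ℤ)) (y : ℤ × ℤ) :
    MeasurableSet {ω : ℤ × ℤ → SiteData | y ∈ cov Λ ω} := by
  have : {ω : ℤ × ℤ → SiteData | y ∈ cov Λ ω} =
      ⋃ x ∈ Λ, (fun ω : ℤ × ℤ → SiteData => ω x) ⁻¹'
        {W : SiteData | ∃ i < W.1, y ∈ ray x (dir (W.2 i).1) (W.2 i).2} := by
    ext ω; simp [cov]
  rw [this]
  refine MeasurableSet.biUnion (Set.to_countable Λ) fun x _ => ?_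
  exact (meas_site fun w => y ∈ ray x (dir w.1) w.2).preimage (measurable_pi_apply x)

theorem meas_reach (Λ B : Set (ℤ × ℤ)) (n : ℕ) (x y : ℤ × ℤ) :
    MeasurableSet {ω : ℤ × ℤ → SiteData | Reach (cov Λ ω ∩ B) n x y} := by
  induction n generalizing y with
  | zero =>
    have : {ω : ℤ × ℤ → SiteData | Reach (cov Λ ω ∩ B) 0 x y} =
        {ω | x ∈ cov Λ ω} ∩ {ω | x = y ∧ x ∈ B} := by
      ext ω; simp [Reach]; tauto
    rw [this]
    exact (meas_cov Λ x).inter (MeasurableSet.const _)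
  | succ n ih =>
    have : {ω : ℤ × ℤ → SiteData | Reach (cov Λ ω ∩ B) (n + 1) x y} =
        ⋃ z, ({ω | Reach (cov Λ ω ∩ B) n x z} ∩ ({ω | y ∈ cov Λ ω} ∩
          {ω | grid.Adj z y ∧ y ∈ B})) := by
      ext ω; simp [Reach]; tauto
    rw [this]
    exact MeasurableSet.iUnion fun z => (ih z).inter ((meas_cov Λ y).inter (MeasurableSet.const _))

theorem meas_conn (Λ B : Set (ℤ × ℤ)) (x y : ℤ × ℤ) :
    MeasurableSet {ω : ℤ × ℤ → SiteData | Conn (cov Λ ω ∩ B) x y} := by
  have : {ω : ℤ × ℤ → SiteData | Conn (cov Λ ω ∩ B) x y} =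
      ⋃ n, {ω | Reach (cov Λ ω ∩ B) n x y} := by
    ext ω; simp [Conn]
  rw [this]
  exact MeasurableSet.iUnion fun n => meas_reach Λ B n x y

theorem meas_conn' (x y : ℤ × ℤ) :
    MeasurableSet {ω : ℤ × ℤ → SiteData | Conn (cov Set.univ ω) x y} := by
  simpa using meas_conn Set.univ Set.univ x y

theorem meas_H (c : ℤ × ℤ) (r : ℕ) : MeasurableSet {ω | H c r ω} := by
  have : {ω | H c r ω} = ⋃ u, ⋃ v, ({ω : ℤ × ℤ → SiteData | D c u ≤ r ∧ 10 * r < D c v} ∩
      {ω | Conn (cov {x | D c x ≤ 12 * r} ω ∩ {y | D c y ≤ 10 * r + 1}) u v}) := by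
    ext ω; simp [H, and_assoc]
  rw [this]
  exact MeasurableSet.iUnion fun u => MeasurableSet.iUnion fun v =>
    (MeasurableSet.const _).inter (meas_conn _ _ u v)

/-- the finite set of sites in a ball -/
noncomputable def ball (c : ℤ × ℤ) (R : ℕ) : Finset (ℤ × ℤ) :=
  Finset.Icc (c.1 - R) (c.1 + R) ×ˢ Finset.Icc (c.2 - R) (c.2 + R)

theorem mem_ball {c x : ℤ × ℤ} {R : ℕ} : x ∈ ball c R ↔ D c x ≤ R := by
  unfold ball D
  rw [Finset.mem_product, Finset.mem_Icc, Finset.mem_Icc]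
  omega

theorem card_ball (c : ℤ × ℤ) (R : ℕ) : (ball c R).card = (2 * R + 1) ^ 2 := by
  unfold ball
  rw [Finset.card_product, Int.card_Icc, Int.card_Icc, sq]
  congr 1 <;> omega

/-- independence of events depending on disjoint finite sets of coordinates -/
theorem indep_of_disjoint {ι α : Type*} [MeasurableSpace α] [Inhabited α]
    (Q : ι → Measure α) [∀ i, IsProbabilityMeasure (Q i)] (F G : Finset ι) (hFG : Disjoint F G)
    (A B : Set (ι → α)) (hA : MeasurableSet A) (hB : MeasurableSet B)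
    (hA' : ∀ ω ω', (∀ x ∈ F, ω x = ω' x) → (ω ∈ A ↔ ω' ∈ A))
    (hB' : ∀ ω ω', (∀ x ∈ G, ω x = ω' x) → (ω ∈ B ↔ ω' ∈ B)) :
    Measure.infinitePi Q (A ∩ B) = Measure.infinitePi Q A * Measure.infinitePi Q B := by
  classical
  have h1 : iIndepFun (fun i (ω : ι → α) => ω i) (Measure.infinitePi Q) :=
    iIndepFun_infinitePi (P := Q) (X := fun _ w => w) (fun i => measurable_id)
  have h2 := h1.indepFun_finset F G hFG (fun i => measurable_pi_apply i)
  have ext : ∀ F : Finset ι, ∃ e : (F → α) → (ι → α), Measurable e ∧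
      ∀ w, ∀ i, (hi : i ∈ F) → e w i = w ⟨i, hi⟩ := by
    intro F
    refine ⟨fun w i => if hi : i ∈ F then w ⟨i, hi⟩ else default, ?_, ?_⟩
    · refine measurable_pi_lambda _ fun i => ?_
      by_cases hi : i ∈ F
      · simp only [hi, dif_pos]; exact measurable_pi_apply _
      · simp only [hi, dif_neg, not_false_eq_true]; exact measurable_const
    · intro w i hi; simp [hi]
  obtain ⟨e, he, he'⟩ := ext F
  obtain ⟨g, hg, hg'⟩ := ext G
  have eA : A = (fun (a : ι → α) (i : F) => a i) ⁻¹' (e ⁻¹' A) := by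
    ext ω
    rw [Set.mem_preimage, Set.mem_preimage]
    exact hA' _ _ fun x hx => by rw [he' _ x hx]
  have eB : B = (fun (a : ι → α) (i : G) => a i) ⁻¹' (g ⁻¹' B) := by
    ext ω
    rw [Set.mem_preimage, Set.mem_preimage]
    exact hB' _ _ fun x hx => by rw [hg' _ x hx]
  have h3 := h2.measure_inter_preimage_eq_mul (e ⁻¹' A) (g ⁻¹' B) (he hA) (hg hB)
  rw [← eA, ← eB] at h3
  exact h3

theorem cov_congr {Λ : Set (ℤ × ℤ)} {ω ω' : ℤ × ℤ → SiteData} (h : ∀ x ∈ Λ, ω x = ω' x) :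
    cov Λ ω = cov Λ ω' := by
  ext y
  unfold cov
  constructor
  · rintro ⟨x, hx, i, hi, hy⟩
    rw [h x hx] at hi hy
    exact ⟨x, hx, i, hi, hy⟩
  · rintro ⟨x, hx, i, hi, hy⟩
    rw [← h x hx] at hi hy
    exact ⟨x, hx, i, hi, hy⟩

theorem H_congr {c : ℤ × ℤ} {r : ℕ} {ω ω' : ℤ × ℤ → SiteData}
    (h : ∀ x ∈ ball c (12 * r), ω x = ω' x) : H c r ω ↔ H c r ω' := by
  unfold H
  rw [cov_congr (Λ := {x | D c x ≤ 12 * r}) (ω := ω) (ω' := ω')]
  intro x hx
  exact h x (mem_ball.2 hx)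

theorem indep_H {lam : ℝ≥0} {ν : Measure ℕ} [IsProbabilityMeasure ν] {c x1 x2 : ℤ × ℤ} {r : ℕ}
    (hr : 1 ≤ r) (h1 : D c x1 ≤ 21 * r) (h2 : 79 * r ≤ D c x2) :
    rayLaw lam ν {ω | H x1 r ω ∧ H x2 r ω} = rayLaw lam ν {ω | H x1 r ω} *
      rayLaw lam ν {ω | H x2 r ω} := by
  refine indep_of_disjoint (fun _ => siteLaw lam ν) (ball x1 (12 * r)) (ball x2 (12 * r)) ?_ _ _
    (meas_H x1 r) (meas_H x2 r) (fun ω ω' h => H_congr h) (fun ω ω' h => H_congr h)
  rw [Finset.disjoint_left]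
  intro a ha hb
  rw [mem_ball] at ha hb
  have h3 := D_tri c x1 a
  have h4 := D_tri c a x2
  have h5 := D_comm a x2
  omega

theorem eval_law {lam : ℝ≥0} {ν : Measure ℕ} [IsProbabilityMeasure ν] (x : ℤ × ℤ)
    {A : Set SiteData} (hA : MeasurableSet A) :
    rayLaw lam ν {ω | ω x ∈ A} = siteLaw lam ν A := by
  have := Measure.infinitePi_map_eval (fun _ : ℤ × ℤ => siteLaw lam ν) x
  rw [← this, Measure.map_apply (measurable_pi_apply x) hA]
  rfl

theorem long_le {lam : ℝ≥0} {ν : Measure ℕ} [IsProbabilityMeasure ν] (s : ℕ) :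
    siteLaw lam ν {W | long s W} ≤ lam * ν (Set.Ici s) := by
  set Q := Measure.infinitePi (fun _ : ℕ => (PMF.uniformOfFintype (Fin 4)).toMeasure.prod ν)
    with hQ
  have h1 : {W : SiteData | long s W} ⊆
      ⋃ i : ℕ, (Set.Ioi i) ×ˢ {w : ℕ → Fin 4 × ℕ | s ≤ (w i).2} := by
    rintro W ⟨i, hi, hs⟩
    exact Set.mem_iUnion.2 ⟨i, hi, hs⟩
  have h2 : ∀ i : ℕ, siteLaw lam ν ((Set.Ioi i) ×ˢ {w : ℕ → Fin 4 × ℕ | s ≤ (w i).2}) =
      poissonMeasure lam (Set.Ioi i) * ν (Set.Ici s) := by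
    intro i
    unfold siteLaw
    rw [Measure.prod_prod]
    congr 1
    have h3 := Measure.infinitePi_map_eval
      (fun _ : ℕ => (PMF.uniformOfFintype (Fin 4)).toMeasure.prod ν) i
    have h4 : {w : ℕ → Fin 4 × ℕ | s ≤ (w i).2} = (fun w : ℕ → Fin 4 × ℕ => w i) ⁻¹'
        ((Set.univ : Set (Fin 4)) ×ˢ Set.Ici s) := by
      ext w; simp
    rw [h4, ← Measure.map_apply (measurable_pi_apply i) (MeasurableSet.of_discrete), h3,
      Measure.prod_prod, measure_univ, one_mul]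
  have h5 : ∑' i : ℕ, poissonMeasure lam (Set.Ioi i) = lam := by
    have h6 : ∀ i : ℕ, poissonMeasure lam (Set.Ioi i) =
        ∑' n : ℕ, (if i < n then poissonMeasure lam {n} else 0) := by
      intro i
      rw [← Measure.tsum_indicator_apply_singleton _ _ MeasurableSet.of_discrete]
      refine tsum_congr fun n => ?_
      simp [Set.indicator_apply]
    simp_rw [h6]
    rw [ENNReal.tsum_comm]
    have h7 : ∀ n : ℕ, ∑' i : ℕ, (if i < n then poissonMeasure lam {n} else 0) =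
        n * poissonMeasure lam {n} := by
      intro n
      rw [tsum_eq_sum (s := Finset.range n) (fun i hi => by
        rw [if_neg (by simpa using hi)])]
      rw [Finset.sum_congr rfl (g := fun _ => poissonMeasure lam {n}) (fun i hi => by
        rw [if_pos (Finset.mem_range.1 hi)])]
      simp
    simp_rw [h7]
    rw [tsum_eq_zero_add' ENNReal.summable]
    simp only [Nat.cast_zero, zero_mul, zero_add]
    have h8 : ∀ n : ℕ, ((n + 1 : ℕ) : ℝ≥0∞) * poissonMeasure lam {n + 1} =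
        lam * poissonMeasure lam {n} := by
      intro n
      rw [poissonMeasure_singleton, poissonMeasure_singleton]
      rw [show ((n + 1 : ℕ) : ℝ≥0∞) = ENNReal.ofReal ((n + 1 : ℕ) : ℝ) from
          (ENNReal.ofReal_natCast _).symm,
        show (lam : ℝ≥0∞) = ENNReal.ofReal (lam : ℝ) by simp,
        ← ENNReal.ofReal_mul (by positivity), ← ENNReal.ofReal_mul (by positivity)]
      congr 1
      rw [Nat.factorial_succ]
      push_cast
      field_simp
      ring
    simp_rw [h8]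
    rw [ENNReal.tsum_mul_left]
    have h9 : ∑' n : ℕ, poissonMeasure lam {n} = 1 := by
      have := Measure.tsum_indicator_apply_singleton (poissonMeasure lam) Set.univ MeasurableSet.univ
      simpa using this
    rw [h9, mul_one]
  calc siteLaw lam ν {W | long s W} ≤ siteLaw lam ν
        (⋃ i : ℕ, (Set.Ioi i) ×ˢ {w : ℕ → Fin 4 × ℕ | s ≤ (w i).2}) := measure_mono h1
    _ ≤ ∑' i : ℕ, siteLaw lam ν ((Set.Ioi i) ×ˢ {w : ℕ → Fin 4 × ℕ | s ≤ (w i).2}) :=
        measure_iUnion_le _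
    _ = lam * ν (Set.Ici s) := by
        simp_rw [h2]
        rw [ENNReal.tsum_mul_right, h5]

theorem meas_long (s : ℕ) : MeasurableSet {W : SiteData | long s W} :=
  meas_site fun w => s ≤ w.2

theorem long_at_le {lam : ℝ≥0} {ν : Measure ℕ} [IsProbabilityMeasure ν] (x : ℤ × ℤ) (s : ℕ) :
    rayLaw lam ν {ω | long s (ω x)} ≤ lam * ν (Set.Ici s) :=
  (eval_law x (meas_long s)).trans_le (long_le s)

theorem long_ball_le {lam : ℝ≥0} {ν : Measure ℕ} [IsProbabilityMeasure ν] (c : ℤ × ℤ)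
    (R s : ℕ) :
    rayLaw lam ν {ω | ∃ x, D c x ≤ R ∧ long s (ω x)} ≤
      ((2 * R + 1) ^ 2 : ℕ) * (lam * ν (Set.Ici s)) := by
  have h1 : {ω : ℤ × ℤ → SiteData | ∃ x, D c x ≤ R ∧ long s (ω x)} =
      ⋃ x ∈ ball c R, {ω | long s (ω x)} := by
    ext ω; simp [mem_ball]
  rw [h1]
  refine (measure_biUnion_finset_le _ _).trans ?_
  refine (Finset.sum_le_sum fun x _ => long_at_le x s).trans ?_
  rw [Finset.sum_const, card_ball, nsmul_eq_mul]

end Pool.Agent.X178.Ray
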